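import Mathlib

set_option autoImplicit false

namespace Pool.Agent.H.MP_9c356a_lc

def hh : Fin 2 → List (Fin 2) := ![[1], [0, 1, 1]]

def FF : List (Fin 2) → List (Fin 2) := fun u => u.flatMap hh

theorem FF_inj : Function.Injective FF := by
  intro u
  induction u with
  | nil =>
    intro v h
    rcases v with _ | ⟨b, v⟩
    · rfl
    · fin_cases b <;> simp [FF, hh] at h
  | cons a u ih =>
    intro v h
    rcases v with _ | ⟨b, v⟩
    · fin_cases a <;> simp [FF, hh] at h
    · fin_cases a <;> fin_cases b <;> simp [FF, hh] at h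
      · rw [ih (show FF u = FF v from h)]
      · rw [ih (show FF u = FF v from h)]

theorem iter_flatten (k : ℕ) (l : List (List (Fin 2))) :
    FF^[k] l.flatten = (l.map FF^[k]).flatten := by
  induction k generalizing l with
  | zero => simp
  | succ k ih =>
    have : FF l.flatten = (l.map FF).flatten := by
      induction l with
      | nil => rfl
      | cons a l ih' =>
        simp only [List.flatten_cons, List.map_cons, ← ih']
        simp [FF]
    rw [Function.iterate_succ_apply, this, ih, List.map_map]; rfl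

theorem shift (L : List ℕ) (D k : ℕ) (hL : ∀ i ∈ L, i ≤ D) (w : List (Fin 2)) :
    FF^[k + D] w = (L.map (fun i => FF^[k + D - i] w)).flatten ↔
      FF^[D] w = (L.map (fun i => FF^[D - i] w)).flatten := by
  rw [← (FF_inj.iterate k).eq_iff (a := FF^[D] w), iter_flatten, List.map_map,
    Function.iterate_add_apply]
  congr! 2
  apply List.map_congr_left
  intro i hi
  have := hL i hi
  simp only [Function.comp]
  rw [← Function.iterate_add_apply]; congr 1; omega

theorem le_foldr (L : List ℕ) : ∀ i ∈ L, i ≤ L.foldr max 0 := by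
  induction L with
  | nil => simp
  | cons a L ih =>
    intro i hi
    rcases List.mem_cons.1 hi with rfl | hi
    · exact le_max_left _ _
    · exact (ih i hi).trans (le_max_right _ _)

theorem pos : ∀ m : ℕ, 3 ≤ m → FF^[m] [0, 1] =
    (([2, 3, 2, 2, 1] : List ℕ).map (fun i => FF^[m - i] [0, 1])).flatten := by
  intro m hm
  obtain ⟨k, rfl⟩ : ∃ k, m = k + 3 := ⟨m - 3, by omega⟩
  rw [shift _ 3 k (by decide)]
  decide

theorem neg (L : List ℕ) (h1 : ∀ i ∈ L, 0 < i) (h2 : ∀ i ∈ L, i ≤ 2) (N : ℕ)
    (h : ∀ m : ℕ, N ≤ m → FF^[m] [0, 1] = (L.map (fun i => FF^[m - i] [0, 1])).flatten) : False := by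
  have := (shift L 2 N h2 _).1 (h (N + 2) (by omega))
  have e : ∀ i ∈ L, FF^[2 - i] [0, 1] = [0, 1] ∨ FF^[2 - i] [0, 1] = [1, 0, 1, 1] := by
    intro i hi
    have := h1 i hi
    have := h2 i hi
    obtain rfl | rfl : i = 1 ∨ i = 2 := by omega
    · right; decide
    · left; rfl
  have e2 : FF^[2] [0, 1] = [0, 1, 1, 1, 0, 1, 1, 0, 1, 1] := by decide
  rw [e2] at this
  rcases L with _ | ⟨a, _ | ⟨b, L⟩⟩
  · simp at this
  · rcases e a (by simp) with ha | ha <;> simp [ha] at this
  · rcases e a (by simp) with ha | ha <;> rcases e b (by simp) with hb | hb <;>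
      simp [ha, hb] at this

end Pool.Agent.H.MP_9c356a_lc
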